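import Pool.Agent.H380.BE.Hl

/-!
# The strong type inequality for the maximal function over cubes (helper79)
-/

set_option autoImplicit false

open MeasureTheory Set Metric
open scoped ENNReal

namespace Pool.Agent.H79.BE

open Pool.Agent.W203.BE Pool.Agent.H380.BE

theorem two_zpow_add (a b : ℤ) : (2 : ℝ≥0∞) ^ (a + b) = (2 : ℝ≥0∞) ^ a * (2 : ℝ≥0∞) ^ b :=
  ENNReal.zpow_add (by norm_num) (by norm_num) a b

/-- comparison with the truncated function -/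
theorem HM_le {n : ℕ} {f : (Fin n → ℝ) → ℝ≥0∞} (hf : Measurable f) (k : ℤ) (x : Fin n → ℝ) :
    HM f x ≤ HM ({y | (2 : ℝ≥0∞) ^ (k - n - 1) < f y}.indicator f) x + (2 : ℝ≥0∞) ^ (k - 1) := by
  have hms : MeasurableSet {y | (2 : ℝ≥0∞) ^ (k - n - 1) < f y} :=
    measurableSet_lt measurable_const hf
  unfold HM
  refine iSup_le fun r => ?_
  have hr : 0 < r.1 := r.2
  have h1 : ∫⁻ y in closedBall x r.1, f y ≤
      (∫⁻ y in closedBall x r.1, {y | (2 : ℝ≥0∞) ^ (k - n - 1) < f y}.indicator f y) +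
        (2 : ℝ≥0∞) ^ (k - n - 1) * ENNReal.ofReal ((2 * r.1) ^ n) := by
    calc ∫⁻ y in closedBall x r.1, f y
        ≤ ∫⁻ y in closedBall x r.1, ({y | (2 : ℝ≥0∞) ^ (k - n - 1) < f y}.indicator f y +
            (2 : ℝ≥0∞) ^ (k - n - 1)) := by
          refine lintegral_mono fun y => ?_
          by_cases hy : (2 : ℝ≥0∞) ^ (k - n - 1) < f y
          · rw [indicator_of_mem (show y ∈ {y | (2 : ℝ≥0∞) ^ (k - n - 1) < f y} from hy)]
            exact le_self_add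
          · rw [indicator_of_notMem (show y ∉ {y | (2 : ℝ≥0∞) ^ (k - n - 1) < f y} from hy),
              zero_add]
            exact not_lt.1 hy
      _ = _ := by
          rw [lintegral_add_right _ measurable_const, setLIntegral_const,
            Real.volume_pi_closedBall x hr.le, Fintype.card_fin]
  have h2 : (2 : ℝ≥0∞) ^ (k - n - 1) * ENNReal.ofReal ((2 * r.1) ^ n) / ENNReal.ofReal (r.1 ^ n) =
      (2 : ℝ≥0∞) ^ (k - 1) := by
    have hrn : 0 < r.1 ^ n := pow_pos hr n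
    rw [mul_div_assoc, ← ENNReal.ofReal_div_of_pos hrn, mul_pow, mul_div_assoc,
      div_self hrn.ne', mul_one, ENNReal.ofReal_pow (by norm_num), ENNReal.ofReal_ofNat,
      ← zpow_natCast, ← two_zpow_add]
    congr 1
    ring
  calc (∫⁻ y in closedBall x r.1, f y) / ENNReal.ofReal (r.1 ^ n)
      ≤ ((∫⁻ y in closedBall x r.1, {y | (2 : ℝ≥0∞) ^ (k - n - 1) < f y}.indicator f y) +
        (2 : ℝ≥0∞) ^ (k - n - 1) * ENNReal.ofReal ((2 * r.1) ^ n)) / ENNReal.ofReal (r.1 ^ n) :=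
        ENNReal.div_le_div_right h1 _
    _ = (∫⁻ y in closedBall x r.1, {y | (2 : ℝ≥0∞) ^ (k - n - 1) < f y}.indicator f y) /
          ENNReal.ofReal (r.1 ^ n) + (2 : ℝ≥0∞) ^ (k - 1) := by
        rw [ENNReal.add_div, h2]
    _ ≤ _ := by
        refine add_le_add ?_ le_rfl
        exact le_iSup (fun r : {r : ℝ // 0 < r} => (∫⁻ y in closedBall x r.1,
          {y | (2 : ℝ≥0∞) ^ (k - n - 1) < f y}.indicator f y) / ENNReal.ofReal (r.1 ^ n)) r

/-- the levels of the maximal function -/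
theorem level_le (h1 : S_WEAK) {n : ℕ} {f : (Fin n → ℝ) → ℝ≥0∞} (hf : Measurable f) (k : ℤ) :
    volume {x | (2 : ℝ≥0∞) ^ k < HM f x} ≤ (2 : ℝ≥0∞) ^ (1 - k) *
      (10 ^ n * ∫⁻ y, {y | (2 : ℝ≥0∞) ^ (k - n - 1) < f y}.indicator f y) := by
  set g := {y | (2 : ℝ≥0∞) ^ (k - n - 1) < f y}.indicator f with hg
  have hsub : {x | (2 : ℝ≥0∞) ^ k < HM f x} ⊆ {x | (2 : ℝ≥0∞) ^ (k - 1) < HM g x} := by
    intro x hx
    have hx' : (2 : ℝ≥0∞) ^ k < HM f x := hx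
    change (2 : ℝ≥0∞) ^ (k - 1) < HM g x
    by_contra hcon
    have h2 := HM_le hf k x
    have h3 : HM f x ≤ (2 : ℝ≥0∞) ^ (k - 1) + (2 : ℝ≥0∞) ^ (k - 1) :=
      h2.trans (add_le_add (not_lt.1 hcon) le_rfl)
    have h4 : (2 : ℝ≥0∞) ^ (k - 1) + (2 : ℝ≥0∞) ^ (k - 1) = (2 : ℝ≥0∞) ^ k := by
      rw [← two_mul]
      have : (2 : ℝ≥0∞) * (2 : ℝ≥0∞) ^ (k - 1) = (2 : ℝ≥0∞) ^ (1 : ℤ) * (2 : ℝ≥0∞) ^ (k - 1) := by
        rw [zpow_one]
      rw [this, ← two_zpow_add]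
      congr 1
      ring
    rw [h4] at h3
    exact absurd hx' (not_lt.2 h3)
  have h5 := h1 n g ((2 : ℝ≥0∞) ^ (k - 1))
  have h6 : (2 : ℝ≥0∞) ^ (1 - k) * (2 : ℝ≥0∞) ^ (k - 1) = 1 := by
    rw [← two_zpow_add]
    have : (1 - k) + (k - 1) = 0 := by ring
    rw [this, zpow_zero]
  calc volume {x | (2 : ℝ≥0∞) ^ k < HM f x} ≤ volume {x | (2 : ℝ≥0∞) ^ (k - 1) < HM g x} :=
        measure_mono hsub
    _ = (2 : ℝ≥0∞) ^ (1 - k) * ((2 : ℝ≥0∞) ^ (k - 1) *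
          volume {x | (2 : ℝ≥0∞) ^ (k - 1) < HM g x}) := by
        rw [← mul_assoc, h6, one_mul]
    _ ≤ _ := mul_le_mul' le_rfl h5

theorem t_STRONG (h1 : S_WEAK) (h2 : S_DYAD) : S_STRONG := by
  intro n p hp
  obtain ⟨C2, hC2, hd1, hd2⟩ := h2 p hp n
  refine ⟨10 ^ n * C2, by positivity, fun f hf => ?_⟩
  set A : ℤ → Set (Fin n → ℝ) := fun k => {x | (2 : ℝ≥0∞) ^ k < HM f x} with hA
  set B : ℤ → Set (Fin n → ℝ) := fun k => toMeasurable volume (A k) with hB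
  have hBm : ∀ k, MeasurableSet (B k) := fun k => measurableSet_toMeasurable _ _
  have hpt : ∀ x, HM f x ^ p ≤ ∑' k : ℤ, ((2 : ℝ≥0∞) ^ (k + 1)) ^ p * (B k).indicator 1 x := by
    intro x
    refine (hd1 (HM f x)).trans ?_
    refine ENNReal.tsum_le_tsum fun k => mul_le_mul' le_rfl ?_
    by_cases hx : (2 : ℝ≥0∞) ^ k < HM f x
    · have hxB : x ∈ B k := subset_toMeasurable _ _ (show x ∈ A k from hx)
      rw [indicator_of_mem (show HM f x ∈ {z : ℝ≥0∞ | (2 : ℝ≥0∞) ^ k < z} from hx),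
        indicator_of_mem hxB]
      exact le_refl _
    · rw [indicator_of_notMem (show HM f x ∉ {z : ℝ≥0∞ | (2 : ℝ≥0∞) ^ k < z} from hx)]
      exact zero_le
  have hfm : ∀ k : ℤ, Measurable ({y | (2 : ℝ≥0∞) ^ (k - n - 1) < f y}.indicator f) :=
    fun k => hf.indicator (measurableSet_lt measurable_const hf)
  calc ∫⁻ x, HM f x ^ p
      ≤ ∫⁻ x, ∑' k : ℤ, ((2 : ℝ≥0∞) ^ (k + 1)) ^ p * (B k).indicator 1 x := lintegral_mono hpt
    _ = ∑' k : ℤ, ∫⁻ x, ((2 : ℝ≥0∞) ^ (k + 1)) ^ p * (B k).indicator 1 x :=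
        lintegral_tsum fun k => ((measurable_one.indicator (hBm k)).const_mul _).aemeasurable
    _ = ∑' k : ℤ, ((2 : ℝ≥0∞) ^ (k + 1)) ^ p * volume (A k) := by
        refine tsum_congr fun k => ?_
        rw [lintegral_const_mul _ (measurable_one.indicator (hBm k)), lintegral_indicator_one (hBm k),
          measure_toMeasurable]
    _ ≤ ∑' k : ℤ, ((2 : ℝ≥0∞) ^ (k + 1)) ^ p * ((2 : ℝ≥0∞) ^ (1 - k) *
          (10 ^ n * ∫⁻ y, {y | (2 : ℝ≥0∞) ^ (k - n - 1) < f y}.indicator f y)) :=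
        ENNReal.tsum_le_tsum fun k => mul_le_mul' le_rfl (level_le h1 hf k)
    _ = ∑' k : ℤ, 10 ^ n * ∫⁻ y, ((2 : ℝ≥0∞) ^ (k + 1)) ^ p * ((2 : ℝ≥0∞) ^ (1 - k) *
          {y | (2 : ℝ≥0∞) ^ (k - n - 1) < f y}.indicator f y) := by
        refine tsum_congr fun k => ?_
        rw [lintegral_const_mul _ ((hfm k).const_mul _), lintegral_const_mul _ (hfm k)]
        ring
    _ = 10 ^ n * ∫⁻ y, ∑' k : ℤ, ((2 : ℝ≥0∞) ^ (k + 1)) ^ p * ((2 : ℝ≥0∞) ^ (1 - k) *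
          {y | (2 : ℝ≥0∞) ^ (k - n - 1) < f y}.indicator f y) := by
        rw [ENNReal.tsum_mul_left, lintegral_tsum fun k =>
          (((hfm k).const_mul _).const_mul _).aemeasurable]
    _ ≤ 10 ^ n * ∫⁻ y, ENNReal.ofReal C2 * f y ^ p := by
        refine mul_le_mul' le_rfl (lintegral_mono fun y => ?_)
        refine le_trans (le_of_eq ?_) (hd2 (f y))
        refine tsum_congr fun k => ?_
        congr 2
    _ = ENNReal.ofReal (10 ^ n * C2) * ∫⁻ x, f x ^ p := by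
        rw [lintegral_const_mul _ (hf.pow_const p), ← mul_assoc,
          ENNReal.ofReal_mul (by positivity), ENNReal.ofReal_pow (by norm_num),
          ENNReal.ofReal_ofNat]

end Pool.Agent.H79.BE
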